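import Mathlib

open Finset
open scoped Classical

namespace GPG

noncomputable section

namespace E4cH

/-- ordered `k`-tuples without conflicts -/
def TupNC (S : Finset ℕ) (conf : ℕ → ℕ → Prop) (k : ℕ) : Finset (Fin k → ℕ) :=
  (Fintype.piFinset (fun _ : Fin k => S)).filter (fun f => ∀ a b, a < b → ¬ conf (f a) (f b))

theorem tupNC_succ (S : Finset ℕ) (conf : ℕ → ℕ → Prop) (c : ℕ)
    (hc : ∀ y ∈ S, (S.filter (conf y)).card ≤ c) (k : ℕ) :
    (TupNC S conf k).card * (S.card - c * k) ≤ (TupNC S conf (k + 1)).card := by
  classical
  set good : (Fin k → ℕ) → Finset ℕ := fun f => S.filter (fun y => ∀ a, ¬ conf (f a) y) with hgood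
  have h1 : ∀ f ∈ TupNC S conf k, S.card - c * k ≤ (good f).card := by
    intro f hf
    have hfS : ∀ a, f a ∈ S := by
      intro a
      have := (mem_filter.1 hf).1
      exact (Fintype.mem_piFinset.1 this) a
    have hcov : S ⊆ good f ∪ (univ : Finset (Fin k)).biUnion (fun a => S.filter (conf (f a))) := by
      intro y hy
      by_cases h : ∀ a, ¬ conf (f a) y
      · exact mem_union_left _ (mem_filter.2 ⟨hy, h⟩)
      · push Not at h
        obtain ⟨a, ha⟩ := h
        exact mem_union_right _ (mem_biUnion.2 ⟨a, mem_univ _, mem_filter.2 ⟨hy, ha⟩⟩)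
    have h2 := card_le_card hcov
    have h3 := card_union_le (good f)
      ((univ : Finset (Fin k)).biUnion (fun a => S.filter (conf (f a))))
    have h4 : ((univ : Finset (Fin k)).biUnion (fun a => S.filter (conf (f a)))).card ≤ c * k := by
      refine (card_biUnion_le_card_mul _ _ c (fun a _ => hc _ (hfS a))).trans ?_
      rw [card_univ, Fintype.card_fin, mul_comm]
    omega
  calc (TupNC S conf k).card * (S.card - c * k) = ∑ f ∈ TupNC S conf k, (S.card - c * k) := by
        rw [sum_const, smul_eq_mul]
    _ ≤ ∑ f ∈ TupNC S conf k, (good f).card := sum_le_sum h1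
    _ = ((TupNC S conf k).sigma good).card := by rw [card_sigma]
    _ ≤ (TupNC S conf (k + 1)).card := by
        refine card_le_card_of_injOn (fun p => (Fin.snoc p.1 p.2 : Fin (k + 1) → ℕ)) ?_ ?_
        · rintro ⟨f, y⟩ hp
          obtain ⟨hf, hy⟩ := mem_sigma.1 hp
          have hf' := mem_filter.1 hf
          have hy' := mem_filter.1 hy
          refine mem_filter.2 ⟨Fintype.mem_piFinset.2 ?_, ?_⟩
          · intro a
            refine Fin.lastCases ?_ (fun a => ?_) a
            · simpa using hy'.1
            · simpa using (Fintype.mem_piFinset.1 hf'.1) a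
          · intro a b
            refine Fin.lastCases ?_ (fun b => ?_) b
            · refine Fin.lastCases ?_ (fun a => ?_) a
              · intro h; exact absurd h (lt_irrefl _)
              · intro _
                simpa using hy'.2 a
            · refine Fin.lastCases ?_ (fun a => ?_) a
              · intro h
                exact absurd h (not_lt.2 (Fin.le_last _))
              · intro h
                have : a < b := by simpa using h
                simpa using hf'.2 a b this
        · rintro ⟨f, y⟩ _ ⟨f', y'⟩ _ h
          have h' : (Fin.snoc f y : Fin (k + 1) → ℕ) = Fin.snoc f' y' := h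
          have e1 : y = y' := by
            have := congrFun h' (Fin.last k)
            simpa using this
          have e2 : f = f' := by
            funext a
            have := congrFun h' a.castSucc
            simpa using this
          subst e1 e2
          rfl

theorem tupNC_card (S : Finset ℕ) (conf : ℕ → ℕ → Prop) (c B : ℕ) (hB : B ≤ S.card)
    (hc : ∀ y ∈ S, (S.filter (conf y)).card ≤ c) (k : ℕ) :
    (B - c * k) ^ k ≤ (TupNC S conf k).card := by
  induction k with
  | zero =>
    simp only [pow_zero]
    refine card_pos.2 ⟨fun a => a.elim0, mem_filter.2 ⟨Fintype.mem_piFinset.2 fun a => a.elim0, ?_⟩⟩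
    intro a; exact a.elim0
  | succ k ih =>
    calc (B - c * (k + 1)) ^ (k + 1) = (B - c * (k + 1)) ^ k * (B - c * (k + 1)) := pow_succ _ _
      _ ≤ (B - c * k) ^ k * (B - c * k) := by
          have : B - c * (k + 1) ≤ B - c * k := by
            have : c * k ≤ c * (k + 1) := Nat.mul_le_mul_left _ (Nat.le_succ _)
            omega
          exact Nat.mul_le_mul (Nat.pow_le_pow_left this _) this
      _ ≤ (TupNC S conf k).card * (S.card - c * k) := Nat.mul_le_mul ih (by omega)
      _ ≤ _ := tupNC_succ S conf c hc k

end E4cH

end

end GPG
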