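import Pool.Agent.Helper96.GP.Basics
import Pool.Agent.Helper9.GP.E4h
import Pool.Agent.Helper99.GP.PLU
import Pool.Agent.Helper74.GP.Tuples

open Finset
open scoped Classical

namespace GPG

noncomputable section

variable {L : LS} {P : Par} {pb : ℝ}

namespace E4cH

/-- triples `(y, x, x')`, `x` on a line through `u, y`, `x'` on a line through `v, y` -/
def TT (L : LS) (u v : ℕ) : Finset (ℕ × ℕ × ℕ) :=
  ((range L.N) ×ˢ (range L.N) ×ˢ (range L.N)).filter (fun q =>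
    (q.1 ≠ u ∧ q.1 ≠ v ∧ ¬ L.Coll q.1 u v) ∧ (q.2.1 < v ∧ q.2.2 < v) ∧
    (∃ j ∈ L.ls, ¬ L.pre j ∧ u ∈ j ∧ q.1 ∈ j ∧ q.2.1 ∈ j) ∧
    (∃ j ∈ L.ls, ¬ L.pre j ∧ v ∈ j ∧ q.1 ∈ j ∧ q.2.2 ∈ j))

theorem line_sum_le (lam : ℕ → ℝ) (h0 : ∀ x, 0 ≤ lam x) (w y : ℕ) :
    ∑ x ∈ (range L.N).filter (fun x => ∃ j ∈ L.ls, ¬ L.pre j ∧ w ∈ j ∧ y ∈ j ∧ x ∈ j), lam x ≤
      L.r lam w y := by
  unfold LS.r
  calc ∑ x ∈ (range L.N).filter (fun x => ∃ j ∈ L.ls, ¬ L.pre j ∧ w ∈ j ∧ y ∈ j ∧ x ∈ j), lam x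
      ≤ ∑ x ∈ (range L.N).filter (fun x => ∃ j ∈ L.ls, ¬ L.pre j ∧ w ∈ j ∧ y ∈ j ∧ x ∈ j),
          ∑ j ∈ L.ls.filter (fun j => ¬ L.pre j ∧ w ∈ j ∧ y ∈ j), if x ∈ j then lam x else 0 := by
        refine sum_le_sum (fun x hx => ?_)
        obtain ⟨_, j, hj, hjp, hw, hy, hxj⟩ := mem_filter.1 hx
        have hm : j ∈ L.ls.filter (fun j => ¬ L.pre j ∧ w ∈ j ∧ y ∈ j) :=
          mem_filter.2 ⟨hj, hjp, hw, hy⟩
        have := single_le_sum (f := fun j => if x ∈ j then lam x else 0)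
          (fun i _ => by split_ifs; exacts [h0 x, le_rfl]) hm
        simpa [hxj] using this
    _ = ∑ j ∈ L.ls.filter (fun j => ¬ L.pre j ∧ w ∈ j ∧ y ∈ j),
          ∑ x ∈ (range L.N).filter (fun x => ∃ j ∈ L.ls, ¬ L.pre j ∧ w ∈ j ∧ y ∈ j ∧ x ∈ j),
            if x ∈ j then lam x else 0 := sum_comm
    _ ≤ _ := by
        refine sum_le_sum (fun j _ => ?_)
        rw [← sum_filter]
        refine sum_le_sum_of_subset_of_nonneg ?_ (fun i _ _ => h0 i)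
        intro x hx
        exact (mem_filter.1 hx).2

theorem r_nonneg (lam : ℕ → ℝ) (h0 : ∀ x, 0 ≤ lam x) (w y : ℕ) : 0 ≤ L.r lam w y := by
  unfold LS.r
  exact sum_nonneg fun j _ => sum_nonneg fun x _ => h0 x

theorem TT_sum_le (lam : ℕ → ℝ) (h0 : ∀ x, 0 ≤ lam x) (u v : ℕ) :
    ∑ q ∈ TT L u v, lam q.2.1 * lam q.2.2 ≤
      ∑ y ∈ (range L.N).filter (fun y => y ≠ u ∧ y ≠ v ∧ ¬ L.Coll y u v),
        L.r lam u y * L.r lam v y := by
  have hsub : TT L u v ⊆ (((range L.N).filter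
      (fun y => y ≠ u ∧ y ≠ v ∧ ¬ L.Coll y u v)).sigma (fun y =>
        ((range L.N).filter (fun x => ∃ j ∈ L.ls, ¬ L.pre j ∧ u ∈ j ∧ y ∈ j ∧ x ∈ j)) ×ˢ
        ((range L.N).filter (fun x => ∃ j ∈ L.ls, ¬ L.pre j ∧ v ∈ j ∧ y ∈ j ∧ x ∈ j)))).image
      (fun p : (_ : ℕ) × (ℕ × ℕ) => (p.1, p.2.1, p.2.2)) := by
    rintro ⟨y, x, x'⟩ hq
    obtain ⟨hm, h1, h2, h3, h4⟩ := mem_filter.1 hq
    obtain ⟨hy, hm'⟩ := mem_product.1 hm
    obtain ⟨hx, hx'⟩ := mem_product.1 hm'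
    refine mem_image.2 ⟨⟨y, x, x'⟩, mem_sigma.2 ⟨mem_filter.2 ⟨hy, h1⟩, mem_product.2
      ⟨mem_filter.2 ⟨hx, h3⟩, mem_filter.2 ⟨hx', h4⟩⟩⟩, rfl⟩
  have hinj : Function.Injective (fun p : (_ : ℕ) × (ℕ × ℕ) => (p.1, p.2.1, p.2.2)) := by
    rintro ⟨a, b, c⟩ ⟨a', b', c'⟩ h
    simp only [Prod.mk.injEq] at h
    obtain ⟨h1, h2, h3⟩ := h
    subst h1 h2 h3
    rfl
  refine (sum_le_sum_of_subset_of_nonneg hsub
    (fun q _ _ => mul_nonneg (h0 _) (h0 _))).trans ?_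
  rw [sum_image (fun a _ b _ h => hinj h), sum_sigma]
  refine sum_le_sum (fun y _ => ?_)
  simp only
  rw [sum_product]
  simp only
  simp_rw [← mul_sum]
  rw [← sum_mul]
  exact mul_le_mul (line_sum_le lam h0 u y) (line_sum_le lam h0 v y)
    (sum_nonneg fun x _ => h0 x) (r_nonneg lam h0 u y)

/-- the `2k` points of a tuple -/
def pt {k : ℕ} (F : Fin k → ℕ × ℕ × ℕ) (p : Fin k × Bool) : ℕ :=
  if p.2 then (F p.1).2.1 else (F p.1).2.2

def XF {k : ℕ} (F : Fin k → ℕ × ℕ × ℕ) : Finset ℕ := univ.image (pt F)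

theorem XF_card {k : ℕ} (F : Fin k → ℕ × ℕ × ℕ) (hF : Function.Injective (pt F)) :
    (XF F).card = 2 * k := by
  unfold XF
  rw [card_image_of_injective _ hF, card_univ, Fintype.card_prod, Fintype.card_fin,
    Fintype.card_bool, mul_comm]

theorem XF_prod {k : ℕ} (F : Fin k → ℕ × ℕ × ℕ) (hF : Function.Injective (pt F)) (lam : ℕ → ℝ) :
    ∏ s ∈ XF F, lam s = ∏ a, (lam (F a).2.1 * lam (F a).2.2) := by
  unfold XF
  rw [prod_image (fun a _ b _ h => hF h), Fintype.prod_prod_type]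
  refine prod_congr rfl (fun a _ => ?_)
  rw [Fintype.prod_bool]
  simp [pt]

theorem XF_mem {k : ℕ} (F : Fin k → ℕ × ℕ × ℕ) (s : ℕ) (hs : s ∈ XF F) :
    ∃ a, s = (F a).2.1 ∨ s = (F a).2.2 := by
  obtain ⟨⟨a, b⟩, _, rfl⟩ := mem_image.1 hs
  refine ⟨a, ?_⟩
  cases b
  · right; simp [pt]
  · left; simp [pt]

/-- the tuples used -/
def GT (L : LS) (u v k : ℕ) : Finset (Fin k → ℕ × ℕ × ℕ) :=
  (Fintype.piFinset (fun _ : Fin k => TT L u v)).filter (fun F => Function.Injective (pt F))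

theorem GT_sum_le (lam : ℕ → ℝ) (h0 : ∀ x, 0 ≤ lam x) (u v k : ℕ) (R : ℝ)
    (hR : ∑ y ∈ (range L.N).filter (fun y => y ≠ u ∧ y ≠ v ∧ ¬ L.Coll y u v),
      L.r lam u y * L.r lam v y ≤ R) :
    ∑ F ∈ GT L u v k, ∏ s ∈ XF F, lam s ≤ R ^ k := by
  calc ∑ F ∈ GT L u v k, ∏ s ∈ XF F, lam s
      = ∑ F ∈ GT L u v k, ∏ a, (lam (F a).2.1 * lam (F a).2.2) :=
        sum_congr rfl (fun F hF => XF_prod F (mem_filter.1 hF).2 lam)
    _ ≤ ∑ F ∈ Fintype.piFinset (fun _ : Fin k => TT L u v),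
          ∏ a, (lam (F a).2.1 * lam (F a).2.2) := by
        refine sum_le_sum_of_subset_of_nonneg (filter_subset _ _) (fun F _ _ => ?_)
        exact prod_nonneg fun a _ => mul_nonneg (h0 _) (h0 _)
    _ = ∏ _a : Fin k, ∑ q ∈ TT L u v, (lam q.2.1 * lam q.2.2) := by
        rw [prod_univ_sum]
    _ = (∑ q ∈ TT L u v, (lam q.2.1 * lam q.2.2)) ^ k := by
        rw [prod_const, card_univ, Fintype.card_fin]
    _ ≤ R ^ k := by
        refine pow_le_pow_left₀ (sum_nonneg fun q _ => mul_nonneg (h0 _) (h0 _)) ?_ k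
        exact (TT_sum_le lam h0 u v).trans hR

/-- the set counted by `NC` -/
def SNC (L : LS) (P : Par) (v : ℕ) (C : Finset ℕ) (u : ℕ) : Finset ℕ :=
  (range (tau L P v C)).filter (fun y => y < u ∧ ¬ L.Coll y u v ∧
    (∃ j ∈ L.ls, ¬ L.pre j ∧ y ∈ j ∧ u ∈ j ∧ ∃ x ∈ C, x < y ∧ x ∈ j) ∧
    (∃ j ∈ L.ls, ¬ L.pre j ∧ y ∈ j ∧ v ∈ j ∧ ∃ x ∈ C, x < y ∧ x ∈ j))

theorem GT_count (v : ℕ) (u : ℕ) (k h0 B : ℕ) (C : Finset ℕ)
    (hB : B ≤ NC L P v C u)
    (h1 : ∀ j ∈ L.ls, u ∈ j → v ∉ j → hh L P v C j v < h0)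
    (h2 : ∀ j ∈ L.ls, v ∈ j → u ∉ j → hh L P v C j u < h0) :
    (B - 4 * h0 * k) ^ k ≤
      ((GT L u v k).filter (fun F => ∀ s ∈ XF F, s < tau L P v C ∧ s ∈ C)).card := by
  have hex : ∀ y, y ∈ SNC L P v C u → ∃ x x' ju jv,
      (ju ∈ L.ls ∧ ¬ L.pre ju ∧ y ∈ ju ∧ u ∈ ju ∧ x ∈ C ∧ x < y ∧ x ∈ ju) ∧
      (jv ∈ L.ls ∧ ¬ L.pre jv ∧ y ∈ jv ∧ v ∈ jv ∧ x' ∈ C ∧ x' < y ∧ x' ∈ jv) := by
    intro y hy
    obtain ⟨_, _, _, ⟨j, hj, hjp, hyj, huj, x, hxC, hxy, hxj⟩,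
      ⟨j', hj', hjp', hyj', hvj', x', hxC', hxy', hxj'⟩⟩ := mem_filter.1 hy
    exact ⟨x, x', j, j', ⟨hj, hjp, hyj, huj, hxC, hxy, hxj⟩,
      ⟨hj', hjp', hyj', hvj', hxC', hxy', hxj'⟩⟩
  choose! x x' ju jv hx using hex
  have htv : tau L P v C ≤ v := tau_le v C
  have hSt : ∀ y ∈ SNC L P v C u, y < tau L P v C := fun y hy => mem_range.1 (mem_filter.1 hy).1
  have hSu : ∀ y ∈ SNC L P v C u, y < u := fun y hy => (mem_filter.1 hy).2.1
  have hSc : ∀ y ∈ SNC L P v C u, ¬ L.Coll y u v := fun y hy => (mem_filter.1 hy).2.2.1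
  have hvju : ∀ y ∈ SNC L P v C u, v ∉ ju y := fun y hy h =>
    hSc y hy ⟨ju y, (hx y hy).1.1, (hx y hy).1.2.2.1, (hx y hy).1.2.2.2.1, h⟩
  have hujv : ∀ y ∈ SNC L P v C u, u ∉ jv y := fun y hy h =>
    hSc y hy ⟨jv y, (hx y hy).2.1, (hx y hy).2.2.2.1, h, (hx y hy).2.2.2.2.1⟩
  -- the two counting facts
  have hA : ∀ a, ((SNC L P v C u).filter (fun y' => x y' = a)).card ≤ h0 := by
    intro a
    rcases ((SNC L P v C u).filter (fun y' => x y' = a)).eq_empty_or_nonempty with he | ⟨y0, hy0⟩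
    · rw [he]; simp
    · obtain ⟨hy0S, hy0a⟩ := mem_filter.1 hy0
      have hx0 := (hx y0 hy0S).1
      refine le_trans (card_le_card ?_) (h1 (ju y0) hx0.1 hx0.2.2.2.1 (hvju y0 hy0S)).le
      intro y' hy'
      obtain ⟨hyS, hya⟩ := mem_filter.1 hy'
      have hxy := (hx y' hyS).1
      have hne : x y0 ≠ u := by
        have := hx0.2.2.2.2.2.1
        have := hSu y0 hy0S
        omega
      have hju : ju y0 = ju y' := by
        refine L.uniq _ hx0.1 _ hxy.1 (x y0) u hne hx0.2.2.2.2.2.2 hx0.2.2.2.1 ?_ hxy.2.2.2.1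
        rw [hy0a, ← hya]; exact hxy.2.2.2.2.2.2
      refine mem_filter.2 ⟨hju ▸ hxy.2.2.1, hSt y' hyS, (hSt y' hyS).trans_le htv, ?_⟩
      exact (mem_filter.1 hyS).2.2.2.2
  have hA' : ∀ a, ((SNC L P v C u).filter (fun y' => x' y' = a)).card ≤ h0 := by
    intro a
    rcases ((SNC L P v C u).filter (fun y' => x' y' = a)).eq_empty_or_nonempty with he | ⟨y0, hy0⟩
    · rw [he]; simp
    · obtain ⟨hy0S, hy0a⟩ := mem_filter.1 hy0
      have hx0 := (hx y0 hy0S).2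
      refine le_trans (card_le_card ?_) (h2 (jv y0) hx0.1 hx0.2.2.2.1 (hujv y0 hy0S)).le
      intro y' hy'
      obtain ⟨hyS, hya⟩ := mem_filter.1 hy'
      have hxy := (hx y' hyS).2
      have hne : x' y0 ≠ v := by
        have := hx0.2.2.2.2.2.1
        have := hSt y0 hy0S
        omega
      have hjv : jv y0 = jv y' := by
        refine L.uniq _ hx0.1 _ hxy.1 (x' y0) v hne hx0.2.2.2.2.2.2 hx0.2.2.2.1 ?_ hxy.2.2.2.1
        rw [hy0a, ← hya]; exact hxy.2.2.2.2.2.2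
      refine mem_filter.2 ⟨hjv ▸ hxy.2.2.1, hSt y' hyS, hSu y' hyS, ?_⟩
      exact (mem_filter.1 hyS).2.2.2.1
  obtain ⟨conf, hconf⟩ : ∃ conf : ℕ → ℕ → Prop, ∀ y y', conf y y' ↔
    ((x y' = x y ∨ x y' = x' y) ∨ (x' y' = x y ∨ x' y' = x' y)) := ⟨_, fun _ _ => Iff.rfl⟩
  have hc : ∀ y ∈ SNC L P v C u, ((SNC L P v C u).filter (conf y)).card ≤ 4 * h0 := by
    intro y _
    have hcov : (SNC L P v C u).filter (conf y) ⊆
        (((SNC L P v C u).filter (fun y' => x y' = x y)) ∪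
          ((SNC L P v C u).filter (fun y' => x y' = x' y))) ∪
        (((SNC L P v C u).filter (fun y' => x' y' = x y)) ∪
          ((SNC L P v C u).filter (fun y' => x' y' = x' y))) := by
      intro y' hy'
      obtain ⟨hyS, h⟩ := mem_filter.1 hy'
      simp only [mem_union, mem_filter]
      rw [hconf] at h
      rcases h with (h | h) | (h | h)
      · exact Or.inl (Or.inl ⟨hyS, h⟩)
      · exact Or.inl (Or.inr ⟨hyS, h⟩)
      · exact Or.inr (Or.inl ⟨hyS, h⟩)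
      · exact Or.inr (Or.inr ⟨hyS, h⟩)
    have e1 := card_le_card hcov
    have e2 := card_union_le
      (((SNC L P v C u).filter (fun y' => x y' = x y)) ∪
          ((SNC L P v C u).filter (fun y' => x y' = x' y)))
      (((SNC L P v C u).filter (fun y' => x' y' = x y)) ∪
          ((SNC L P v C u).filter (fun y' => x' y' = x' y)))
    have e3 := card_union_le ((SNC L P v C u).filter (fun y' => x y' = x y))
      ((SNC L P v C u).filter (fun y' => x y' = x' y))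
    have e4 := card_union_le ((SNC L P v C u).filter (fun y' => x' y' = x y))
      ((SNC L P v C u).filter (fun y' => x' y' = x' y))
    have a1 := hA (x y)
    have a2 := hA (x' y)
    have a3 := hA' (x y)
    have a4 := hA' (x' y)
    omega
  refine (tupNC_card (SNC L P v C u) conf (4 * h0) B hB hc k).trans ?_
  refine card_le_card_of_injOn (fun f => fun a => (f a, x (f a), x' (f a))) ?_ ?_
  · intro f hf
    obtain ⟨hfS', hfc⟩ := mem_filter.1 (mem_coe.1 hf)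
    have hfS : ∀ a, f a ∈ SNC L P v C u := Fintype.mem_piFinset.1 hfS'
    have hneq : ∀ a, x (f a) ≠ x' (f a) := by
      intro a h
      have hxu := (hx _ (hfS a)).1
      have hxv := (hx _ (hfS a)).2
      have hne : x (f a) ≠ f a := by
        have := hxu.2.2.2.2.2.1
        omega
      have : ju (f a) = jv (f a) := by
        refine L.uniq _ hxu.1 _ hxv.1 (x (f a)) (f a) hne hxu.2.2.2.2.2.2 hxu.2.2.1 ?_ hxv.2.2.1
        rw [h]; exact hxv.2.2.2.2.2.2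
      exact hujv _ (hfS a) (this ▸ hxu.2.2.2.1)
    have hNC : ∀ a b, a ≠ b → ¬ conf (f a) (f b) := by
      intro a b hab
      rcases lt_or_gt_of_ne hab with h | h
      · exact hfc a b h
      · intro hcf
        refine hfc b a h ?_
        rw [hconf] at hcf ⊢
        rcases hcf with (h | h) | (h | h)
        · exact Or.inl (Or.inl h.symm)
        · exact Or.inr (Or.inl h.symm)
        · exact Or.inl (Or.inr h.symm)
        · exact Or.inr (Or.inr h.symm)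
    have hinj : Function.Injective (pt (fun a => (f a, x (f a), x' (f a)))) := by
      rintro ⟨a, b⟩ ⟨a', b'⟩ h
      by_cases haa : a = a'
      · subst haa
        cases b <;> cases b'
        · rfl
        · exfalso; simp only [pt] at h; exact hneq a (by simpa using h.symm)
        · exfalso; simp only [pt] at h; exact hneq a (by simpa using h)
        · rfl
      · exfalso
        refine hNC a a' haa ?_
        rw [hconf]
        cases b <;> cases b'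
        · exact Or.inr (Or.inr (by simpa [pt] using h.symm))
        · exact Or.inl (Or.inr (by simpa [pt] using h.symm))
        · exact Or.inr (Or.inl (by simpa [pt] using h.symm))
        · exact Or.inl (Or.inl (by simpa [pt] using h.symm))
    refine mem_coe.2 (mem_filter.2 ⟨mem_filter.2 ⟨Fintype.mem_piFinset.2 ?_, hinj⟩, ?_⟩)
    · intro a
      have hxu := (hx _ (hfS a)).1
      have hxv := (hx _ (hfS a)).2
      have t1 := hSt _ (hfS a)
      have t2 := hSu _ (hfS a)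
      have t3 := hxu.2.2.2.2.2.1
      have t4 := hxv.2.2.2.2.2.1
      refine mem_filter.2 ⟨mem_product.2 ⟨L.sub _ hxu.1 hxu.2.2.1, mem_product.2
        ⟨L.sub _ hxu.1 hxu.2.2.2.2.2.2, L.sub _ hxv.1 hxv.2.2.2.2.2.2⟩⟩,
        ⟨?_, ?_, hSc _ (hfS a)⟩, ⟨?_, ?_⟩, ?_, ?_⟩
      · show f a ≠ u
        omega
      · show f a ≠ v
        omega
      · show x (f a) < v
        omega
      · show x' (f a) < v
        omega
      · exact ⟨ju (f a), hxu.1, hxu.2.1, hxu.2.2.2.1, hxu.2.2.1, hxu.2.2.2.2.2.2⟩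
      · exact ⟨jv (f a), hxv.1, hxv.2.1, hxv.2.2.2.1, hxv.2.2.1, hxv.2.2.2.2.2.2⟩
    · intro s hs
      obtain ⟨a, h | h⟩ := XF_mem _ s hs
      · have hxu := (hx _ (hfS a)).1
        have h' : s = x (f a) := h
        rw [h']
        exact ⟨hxu.2.2.2.2.2.1.trans (hSt _ (hfS a)), hxu.2.2.2.2.1⟩
      · have hxv := (hx _ (hfS a)).2
        have h' : s = x' (f a) := h
        rw [h']
        exact ⟨hxv.2.2.2.2.2.1.trans (hSt _ (hfS a)), hxv.2.2.2.2.1⟩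
  · intro f _ g _ h
    funext a
    have := congrFun h a
    exact (Prod.mk.inj this).1

end E4cH

open E4cH

theorem E4c_of (hG : Good L P pb) (v : ℕ) (u : ℕ) (k h0 B : ℕ) (hk : 4 * h0 * k ≤ B) (R : ℝ)
    (hPLX : ∀ X : Finset ℕ, (∀ s ∈ X, s < v) →
      Ex L P v (fun C => if (∀ s ∈ X, s < tau L P v C ∧ s ∈ C) then
        (run L P C v).Z v else 0) ≤
      (1 + P.e1) ^ (X.card ^ 2) * P.E4 ^ (X.card ^ 2 + X.card) * ∏ s ∈ X, P.lam s)
    (hR : ∑ y ∈ (range L.N).filter (fun y => y ≠ u ∧ y ≠ v ∧ ¬ L.Coll y u v),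
      L.r P.lam u y * L.r P.lam v y ≤ R) :
    Ex L P v (fun C => if B ≤ NC L P v C u ∧
        (∀ j ∈ L.ls, u ∈ j → v ∉ j → hh L P v C j v < h0) ∧
        (∀ j ∈ L.ls, v ∈ j → u ∉ j → hh L P v C j u < h0)
        then (run L P C v).Z v else 0) *
      ((B : ℝ) - 4 * h0 * k) ^ k ≤ Cst P (2 * k) * R ^ k := by
  have hcst : 0 ≤ Cst P (2 * k) := by
    unfold Cst
    have h1 := hG.e10
    have h2 := hG.E41
    positivity
  have hcast : ((B : ℝ) - 4 * h0 * k) = ((B - 4 * h0 * k : ℕ) : ℝ) := by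
    rw [Nat.cast_sub hk]; push_cast; ring
  rw [mul_comm, ← Ex_const_mul]
  calc Ex L P v (fun C => ((B : ℝ) - 4 * h0 * k) ^ k * (if B ≤ NC L P v C u ∧
        (∀ j ∈ L.ls, u ∈ j → v ∉ j → hh L P v C j v < h0) ∧
        (∀ j ∈ L.ls, v ∈ j → u ∉ j → hh L P v C j u < h0)
        then (run L P C v).Z v else 0))
      ≤ Ex L P v (fun C => ∑ F ∈ GT L u v k,
          if (∀ s ∈ XF F, s < tau L P v C ∧ s ∈ C) then (run L P C v).Z v else 0) := by
        refine Ex_mono hG v _ _ (fun C _ _ => ?_)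
        have hZ := Z_nonneg hG C v v
        by_cases hE : B ≤ NC L P v C u ∧
            (∀ j ∈ L.ls, u ∈ j → v ∉ j → hh L P v C j v < h0) ∧
            (∀ j ∈ L.ls, v ∈ j → u ∉ j → hh L P v C j u < h0)
        · rw [if_pos hE, ← sum_filter, sum_const, nsmul_eq_mul]
          refine mul_le_mul_of_nonneg_right ?_ hZ
          rw [hcast]
          exact_mod_cast GT_count v u k h0 B C hE.1 hE.2.1 hE.2.2
        · rw [if_neg hE, mul_zero]
          exact sum_nonneg fun F _ => by split_ifs; exacts [hZ, le_rfl]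
    _ = ∑ F ∈ GT L u v k, Ex L P v (fun C =>
          if (∀ s ∈ XF F, s < tau L P v C ∧ s ∈ C) then (run L P C v).Z v else 0) :=
        Ex_sum _ _ _
    _ ≤ ∑ F ∈ GT L u v k, Cst P (2 * k) * ∏ s ∈ XF F, P.lam s := by
        refine sum_le_sum (fun F hF => ?_)
        obtain ⟨hF1, hF2⟩ := mem_filter.1 hF
        have hlt : ∀ s ∈ XF F, s < v := by
          intro s hs
          obtain ⟨a, h | h⟩ := XF_mem F s hs
          · rw [h]; exact (mem_filter.1 (Fintype.mem_piFinset.1 hF1 a)).2.2.1.1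
          · rw [h]; exact (mem_filter.1 (Fintype.mem_piFinset.1 hF1 a)).2.2.1.2
        have := hPLX (XF F) hlt
        rw [XF_card F hF2] at this
        exact this
    _ = Cst P (2 * k) * ∑ F ∈ GT L u v k, ∏ s ∈ XF F, P.lam s := by rw [mul_sum]
    _ ≤ Cst P (2 * k) * R ^ k :=
        mul_le_mul_of_nonneg_left (GT_sum_le P.lam hG.lam0 u v k R hR) hcst

theorem E4c (hG : Good L P pb) (v : ℕ) (hv : v < L.N) (S0 : ℕ)
    (hS0 : (1 / (1 - pb)) ^ S0 ≤ 1 + P.e1) (u : ℕ) (_hu : u < L.N) (_huv : u ≠ v)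
    (k h0 B : ℕ) (hk : 4 * h0 * k ≤ B) (R : ℝ)
    (hR : ∑ y ∈ (range L.N).filter (fun y => y ≠ u ∧ y ≠ v ∧ ¬ L.Coll y u v),
      L.r P.lam u y * L.r P.lam v y ≤ R) :
    Ex L P v (fun C => if B ≤ NC L P v C u ∧
        (∀ j ∈ L.ls, u ∈ j → v ∉ j → hh L P v C j v < h0) ∧
        (∀ j ∈ L.ls, v ∈ j → u ∉ j → hh L P v C j u < h0)
        then (run L P C v).Z v else 0) *
      ((B : ℝ) - 4 * h0 * k) ^ k ≤ Cst P (2 * k) * R ^ k :=
  E4c_of hG v u k h0 B hk R (fun X hX => PLX hG v hv.le X hX S0 hS0) hR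

end

end GPG
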