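import Pool.Agent.Helper96.GP.NDefs
import Pool.Agent.Helper7.GPC.Div
import Pool.Agent.Helper9.GP.SL

open Finset
open scoped Classical

namespace GPG

noncomputable section

namespace NT1H

/-- primitive direction from `u` to `y` -/
def pdir (n u y : ℕ) : ℤ × ℤ :=
  ((px n y - px n u) / (gg n u y : ℤ), (py n y - py n u) / (gg n u y : ℤ))

theorem pdir_spec {n u y : ℕ} (h : u ≠ y) :
    px n y - px n u = (gg n u y : ℤ) * (pdir n u y).1 ∧
    py n y - py n u = (gg n u y : ℤ) * (pdir n u y).2 ∧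
    pd n u y = max (pdir n u y).1.natAbs (pdir n u y).2.natAbs ∧ 0 < gg n u y := by
  have hg : 0 < gg n u y := gg_pos h
  have d1 : (gg n u y : ℤ) ∣ px n y - px n u := Int.gcd_dvd_left _ _
  have d2 : (gg n u y : ℤ) ∣ py n y - py n u := Int.gcd_dvd_right _ _
  have e1 : px n y - px n u = (gg n u y : ℤ) * (pdir n u y).1 := (Int.mul_ediv_cancel' d1).symm
  have e2 : py n y - py n u = (gg n u y : ℤ) * (pdir n u y).2 := (Int.mul_ediv_cancel' d2).symm
  refine ⟨e1, e2, ?_, hg⟩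
  unfold pd DD
  rw [e1, e2, Int.natAbs_mul, Int.natAbs_mul, Int.natAbs_natCast, Nat.mul_max_mul_left,
    Nat.mul_div_cancel_left _ hg]

theorem pdir_line {n u y y' : ℕ} (h : u ≠ y) (h' : u ≠ y') (he : pdir n u y = pdir n u y') :
    det3 n u y y' = 0 := by
  obtain ⟨a1, a2, _, _⟩ := pdir_spec h
  obtain ⟨b1, b2, _, _⟩ := pdir_spec h'
  unfold det3
  rw [a1, a2, b1, b2, he]
  ring

theorem pd_pos {n u y : ℕ} (h : u ≠ y) : 1 ≤ pd n u y := by
  obtain ⟨a1, a2, a3, a4⟩ := pdir_spec h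
  rw [a3]
  by_contra hc
  have h1 : (pdir n u y).1.natAbs = 0 := by omega
  have h2 : (pdir n u y).2.natAbs = 0 := by omega
  rw [Int.natAbs_eq_zero] at h1 h2
  rw [h1, mul_zero] at a1
  rw [h2, mul_zero] at a2
  exact h (px_py_inj (by linarith) (by linarith))

theorem pd_le {n u y : ℕ} (hn : 0 < n) (hu : u < n ^ 2) (hy : y < n ^ 2) : pd n u y ≤ n := by
  unfold pd
  refine (Nat.div_le_self _ _).trans ?_
  unfold DD px py
  have h1 := Nat.mod_lt u hn
  have h2 := Nat.mod_lt y hn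
  have h3 : u / n < n := by rw [Nat.div_lt_iff_lt_mul hn, ← sq]; exact hu
  have h4 : y / n < n := by rw [Nat.div_lt_iff_lt_mul hn, ← sq]; exact hy
  generalize u % n = a1 at *
  generalize y % n = a2 at *
  generalize u / n = a3 at *
  generalize y / n = a4 at *
  clear hu hy
  omega

/-- the number of vectors of sup norm `k` -/
theorem card_box (k : ℕ) (hk : 1 ≤ k) (S : Finset (ℤ × ℤ))
    (hS : ∀ d ∈ S, max d.1.natAbs d.2.natAbs = k) : S.card ≤ 12 * k := by
  have hsub : S ⊆ ((({(k : ℤ), -(k : ℤ)} : Finset ℤ) ×ˢ Icc (-(k : ℤ)) k) ∪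
      (Icc (-(k : ℤ)) k ×ˢ ({(k : ℤ), -(k : ℤ)} : Finset ℤ))) := by
    rintro ⟨a, b⟩ hd
    have := hS _ hd
    simp only at this
    simp only [mem_union, mem_product, mem_insert, mem_singleton, mem_Icc]
    omega
  have h1 : (({(k : ℤ), -(k : ℤ)} : Finset ℤ)).card ≤ 2 := card_le_two
  have h2 : (Icc (-(k : ℤ)) k).card = 2 * k + 1 := by
    rw [Int.card_Icc]; omega
  refine (card_le_card hsub).trans ((card_union_le _ _).trans ?_)
  rw [card_product, card_product, h2]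
  nlinarith

theorem det3_swap (n u w y : ℕ) : det3 n w u y = - det3 n u w y := by
  unfold det3; ring

theorem det3_swap' (n u w y : ℕ) : det3 n u y w = - det3 n u w y := by
  unfold det3; ring

/-- half of `NT1` -/
theorem NT1_half (n u w : ℕ) (hn : 2 ≤ n) (hu : u < n ^ 2) (B : ℝ) (hB : 0 ≤ B)
    (hline : ∀ y < n ^ 2, u ≠ y → det3 n u y w ≠ 0 →
      ∑ z ∈ gline n u y, (1 : ℝ) / max (pd n u y : ℝ) (pd n w z) ≤ B / pd n u y) :
    ∑ y ∈ (range (n ^ 2)).filter (fun y => det3 n u w y ≠ 0 ∧ pd n u y ≤ pd n w y),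
      (1 : ℝ) / (pd n u y * pd n w y) ≤ 12 * B * (1 + Real.log n) := by
  set S := (range (n ^ 2)).filter (fun y => det3 n u w y ≠ 0 ∧ pd n u y ≤ pd n w y) with hS
  have hSm : ∀ y ∈ S, y < n ^ 2 ∧ u ≠ y ∧ det3 n u w y ≠ 0 ∧ pd n u y ≤ pd n w y := by
    intro y hy
    obtain ⟨h1, h2, h3⟩ := mem_filter.1 hy
    refine ⟨mem_range.1 h1, ?_, h2, h3⟩
    rintro rfl
    exact h2 (det3_self1 n u w)
  -- one direction
  have hdir : ∀ d ∈ S.image (pdir n u),
      ∑ y ∈ S.filter (fun y => pdir n u y = d), (1 : ℝ) / (pd n u y * pd n w y) ≤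
        B / ((max d.1.natAbs d.2.natAbs : ℕ) : ℝ) ^ 2 := by
    intro d hd
    obtain ⟨y0, hy0, rfl⟩ := mem_image.1 hd
    obtain ⟨hy0n, huy0, hdet0, _⟩ := hSm y0 hy0
    have hP := (pdir_spec (n := n) huy0).2.2.1
    rw [← hP]
    have hPpos : (0 : ℝ) < pd n u y0 := by exact_mod_cast pd_pos huy0
    have hsub : S.filter (fun y => pdir n u y = pdir n u y0) ⊆ gline n u y0 := by
      intro y hy
      obtain ⟨hyS, hyd⟩ := mem_filter.1 hy
      obtain ⟨hyn, huy, _, _⟩ := hSm y hyS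
      exact mem_gline.2 ⟨hyn, pdir_line huy0 huy hyd.symm⟩
    have hl := hline y0 hy0n huy0 (by rw [det3_swap']; simpa using hdet0)
    calc ∑ y ∈ S.filter (fun y => pdir n u y = pdir n u y0), (1 : ℝ) / (pd n u y * pd n w y)
        = ∑ y ∈ S.filter (fun y => pdir n u y = pdir n u y0),
            (1 / (pd n u y0 : ℝ)) * (1 / max (pd n u y0 : ℝ) (pd n w y)) := by
          refine sum_congr rfl (fun y hy => ?_)
          obtain ⟨hyS, hyd⟩ := mem_filter.1 hy
          obtain ⟨hyn, huy, _, hle⟩ := hSm y hyS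
          have e : pd n u y = pd n u y0 := by
            rw [(pdir_spec (n := n) huy).2.2.1, hyd, ← hP]
          have hle' : (pd n u y0 : ℝ) ≤ pd n w y := by rw [← e]; exact_mod_cast hle
          rw [e, max_eq_right hle', one_div_mul_one_div]
      _ = (1 / (pd n u y0 : ℝ)) * ∑ y ∈ S.filter (fun y => pdir n u y = pdir n u y0),
            (1 / max (pd n u y0 : ℝ) (pd n w y)) := by rw [mul_sum]
      _ ≤ (1 / (pd n u y0 : ℝ)) * ∑ y ∈ gline n u y0,
            (1 / max (pd n u y0 : ℝ) (pd n w y)) := by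
          refine mul_le_mul_of_nonneg_left ?_ (by positivity)
          refine sum_le_sum_of_subset_of_nonneg hsub (fun y _ _ => ?_)
          positivity
      _ ≤ (1 / (pd n u y0 : ℝ)) * (B / pd n u y0) :=
          mul_le_mul_of_nonneg_left hl (by positivity)
      _ = B / (pd n u y0 : ℝ) ^ 2 := by field_simp
  have hk : ∀ d ∈ S.image (pdir n u), max d.1.natAbs d.2.natAbs ∈ Icc 1 n := by
    intro d hd
    obtain ⟨y0, hy0, rfl⟩ := mem_image.1 hd
    obtain ⟨hy0n, huy0, _, _⟩ := hSm y0 hy0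
    rw [← (pdir_spec (n := n) huy0).2.2.1]
    exact mem_Icc.2 ⟨pd_pos huy0, pd_le (by omega) hu hy0n⟩
  calc ∑ y ∈ S, (1 : ℝ) / (pd n u y * pd n w y)
      = ∑ d ∈ S.image (pdir n u), ∑ y ∈ S.filter (fun y => pdir n u y = d),
          (1 : ℝ) / (pd n u y * pd n w y) := by
        rw [sum_fiberwise_of_maps_to (fun y hy => mem_image_of_mem _ hy)]
    _ ≤ ∑ d ∈ S.image (pdir n u), B / ((max d.1.natAbs d.2.natAbs : ℕ) : ℝ) ^ 2 :=
        sum_le_sum hdir
    _ = ∑ k ∈ Icc 1 n, ∑ d ∈ (S.image (pdir n u)).filter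
          (fun d => max d.1.natAbs d.2.natAbs = k), B / ((max d.1.natAbs d.2.natAbs : ℕ) : ℝ) ^ 2 := by
        rw [sum_fiberwise_of_maps_to hk]
    _ ≤ ∑ k ∈ Icc 1 n, 12 * B * (1 / (k : ℝ)) := by
        refine sum_le_sum (fun k hk' => ?_)
        have hk1 : 1 ≤ k := (mem_Icc.1 hk').1
        have hk0 : (0 : ℝ) < k := by exact_mod_cast hk1
        have : ∑ d ∈ (S.image (pdir n u)).filter
            (fun d => max d.1.natAbs d.2.natAbs = k),
              B / ((max d.1.natAbs d.2.natAbs : ℕ) : ℝ) ^ 2 =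
            (((S.image (pdir n u)).filter (fun d => max d.1.natAbs d.2.natAbs = k)).card : ℝ) *
              (B / (k : ℝ) ^ 2) := by
          rw [← nsmul_eq_mul, ← sum_const]
          refine sum_congr rfl (fun d hd => ?_)
          rw [(mem_filter.1 hd).2]
        rw [this]
        have hc : ((((S.image (pdir n u)).filter
            (fun d => max d.1.natAbs d.2.natAbs = k)).card : ℕ) : ℝ) ≤ 12 * k := by
          exact_mod_cast card_box k hk1 _ (fun d hd => (mem_filter.1 hd).2)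
        calc _ ≤ (12 * (k : ℝ)) * (B / (k : ℝ) ^ 2) :=
              mul_le_mul_of_nonneg_right hc (by positivity)
          _ = 12 * B * (1 / (k : ℝ)) := by field_simp
    _ = 12 * B * ∑ k ∈ Icc 1 n, (1 / (k : ℝ)) := by rw [mul_sum]
    _ ≤ 12 * B * (1 + Real.log n) := by
        refine mul_le_mul_of_nonneg_left ?_ (by positivity)
        have := harmonic_le_one_add_log n
        rw [harmonic_eq_sum_Icc] at this
        push_cast at this
        simpa [one_div] using this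

end NT1H

open NT1H

/-- `NT1` from the second part of `sum_line` -/
theorem NT1_of (hsl : ∀ (n a b w : ℕ), 2 ≤ n → a ≠ b → a < n ^ 2 → b < n ^ 2 →
      w < n ^ 2 → det3 n a b w ≠ 0 → ∃ D : ℕ, 1 ≤ D ∧ D ≤ 2 * n ^ 2 ∧
      (∑ y ∈ gline n a b, (1 : ℝ) / max (pd n a b : ℝ) (pd n w y) ≤
        (Nat.divisors D).card * (10 + 10 * Real.log n) / pd n a b))
    (ε : ℝ) (hε : 0 < ε) : ∃ n0 : ℕ, ∀ n ≥ n0, ∀ u < n ^ 2, ∀ w < n ^ 2, u ≠ w →
    ∑ y ∈ (range (n ^ 2)).filter (fun y => det3 n u w y ≠ 0),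
      (1 : ℝ) / (pd n u y * pd n w y) ≤ (n : ℝ) ^ ε := by
  obtain ⟨C, hC1, hC⟩ := Pool.Agent.Helper7.GPC.card_divisors_le (ε := ε / 8) (by positivity)
  set K : ℝ := 240 * C * (2 : ℝ) ^ (ε / 8) * (1 + 8 / ε) ^ 2 with hK
  have hK0 : 0 < K := by positivity
  obtain ⟨n1, hn1⟩ := exists_nat_ge (K ^ (2 / ε))
  refine ⟨max n1 2, fun n hn u hu w hw _ => ?_⟩
  have hn2 : 2 ≤ n := le_trans (le_max_right _ _) hn
  have hn1' : K ^ (2 / ε) ≤ (n : ℝ) := hn1.trans (by exact_mod_cast le_trans (le_max_left _ _) hn)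
  have hnpos : (0 : ℝ) < n := by exact_mod_cast (by omega : 0 < n)
  have hn1r : (1 : ℝ) ≤ n := by exact_mod_cast (by omega : 1 ≤ n)
  have hlog : 0 ≤ Real.log n := Real.log_nonneg hn1r
  set T : ℝ := C * (2 * (n : ℝ) ^ 2) ^ (ε / 8) with hT
  have hT0 : 0 ≤ T := by positivity
  have hdiv : ∀ D : ℕ, 1 ≤ D → D ≤ 2 * n ^ 2 → ((Nat.divisors D).card : ℝ) ≤ T := by
    intro D h1 h2
    refine (hC D (by omega)).trans ?_
    refine mul_le_mul_of_nonneg_left ?_ (by positivity)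
    refine Real.rpow_le_rpow (by positivity) ?_ (by positivity)
    exact_mod_cast h2
  set B : ℝ := T * (10 + 10 * Real.log n) with hB
  have hB0 : 0 ≤ B := by positivity
  have hline : ∀ u' w' : ℕ, u' < n ^ 2 → w' < n ^ 2 → ∀ y < n ^ 2, u' ≠ y →
      det3 n u' y w' ≠ 0 →
      ∑ z ∈ gline n u' y, (1 : ℝ) / max (pd n u' y : ℝ) (pd n w' z) ≤ B / pd n u' y := by
    intro u' w' hu' hw' y hy huy hd
    obtain ⟨D, hD1, hD2, h⟩ := hsl n u' y w' hn2 huy hu' hy hw' hd
    refine h.trans ?_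
    refine div_le_div_of_nonneg_right ?_ (by positivity)
    exact mul_le_mul_of_nonneg_right (hdiv D hD1 hD2) (by positivity)
  have hA := NT1_half n u w hn2 hu B hB0 (hline u w hu hw)
  have hA' := NT1_half n w u hn2 hw B hB0 (hline w u hw hu)
  have hsplit : ∑ y ∈ (range (n ^ 2)).filter (fun y => det3 n u w y ≠ 0),
      (1 : ℝ) / (pd n u y * pd n w y) ≤ 12 * B * (1 + Real.log n) + 12 * B * (1 + Real.log n) := by
    rw [← sum_filter_add_sum_filter_not ((range (n ^ 2)).filter (fun y => det3 n u w y ≠ 0))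
      (fun y => pd n u y ≤ pd n w y), filter_filter, filter_filter]
    refine add_le_add hA (le_trans ?_ hA')
    have : ∀ y, (1 : ℝ) / (pd n u y * pd n w y) = 1 / (pd n w y * pd n u y) := by
      intro y; rw [mul_comm]
    simp_rw [this]
    refine sum_le_sum_of_subset_of_nonneg ?_ (fun y _ _ => by positivity)
    intro y hy
    obtain ⟨h1, h2, h3⟩ := mem_filter.1 hy
    refine mem_filter.2 ⟨h1, ?_, by omega⟩
    rw [det3_swap]; simpa using h2
  refine hsplit.trans ?_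
  -- final estimate
  have hl1 : 1 + Real.log n ≤ (1 + 8 / ε) * (n : ℝ) ^ (ε / 8) := by
    have h1 := Real.log_le_rpow_div hnpos.le (ε := ε / 8) (by positivity)
    have h2 : (1 : ℝ) ≤ (n : ℝ) ^ (ε / 8) := Real.one_le_rpow hn1r (by positivity)
    have h3 : (n : ℝ) ^ (ε / 8) / (ε / 8) = 8 / ε * (n : ℝ) ^ (ε / 8) := by
      field_simp
    rw [h3] at h1
    nlinarith
  have hT' : T = C * (2 : ℝ) ^ (ε / 8) * ((n : ℝ) ^ (ε / 8)) ^ 2 := by
    rw [hT, Real.mul_rpow (by norm_num) (by positivity), ← Real.rpow_natCast ((n : ℝ)) 2,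
      ← Real.rpow_mul hnpos.le, ← Real.rpow_natCast ((n : ℝ) ^ (ε / 8)) 2,
      ← Real.rpow_mul hnpos.le]
    push_cast
    ring_nf
  have hx : 0 < (n : ℝ) ^ (ε / 8) := by positivity
  calc 12 * B * (1 + Real.log n) + 12 * B * (1 + Real.log n)
      = 240 * T * (1 + Real.log n) ^ 2 := by rw [hB]; ring
    _ ≤ 240 * T * ((1 + 8 / ε) * (n : ℝ) ^ (ε / 8)) ^ 2 := by
        refine mul_le_mul_of_nonneg_left ?_ (by positivity)
        exact pow_le_pow_left₀ (by positivity) hl1 2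
    _ = K * ((n : ℝ) ^ (ε / 8)) ^ 4 := by rw [hT', hK]; ring
    _ ≤ (n : ℝ) ^ (ε / 2) * ((n : ℝ) ^ (ε / 8)) ^ 4 := by
        refine mul_le_mul_of_nonneg_right ?_ (by positivity)
        have h1 : (K ^ (2 / ε)) ^ (ε / 2) ≤ (n : ℝ) ^ (ε / 2) :=
          Real.rpow_le_rpow (by positivity) hn1' (by positivity)
        rwa [← Real.rpow_mul hK0.le, show 2 / ε * (ε / 2) = 1 by field_simp, Real.rpow_one] at h1
    _ = (n : ℝ) ^ ε := by
        rw [← Real.rpow_natCast ((n : ℝ) ^ (ε / 8)) 4, ← Real.rpow_mul hnpos.le,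
          ← Real.rpow_add hnpos]
        congr 1
        push_cast
        ring

theorem NT1 (ε : ℝ) (hε : 0 < ε) : ∃ n0 : ℕ, ∀ n ≥ n0, ∀ u < n ^ 2, ∀ w < n ^ 2, u ≠ w →
    ∑ y ∈ (range (n ^ 2)).filter (fun y => det3 n u w y ≠ 0),
      (1 : ℝ) / (pd n u y * pd n w y) ≤ (n : ℝ) ^ ε := by
  refine NT1_of (fun n a b w hn hab ha hb hw hd => ?_) ε hε
  obtain ⟨D, h1, h2, _, h3, _⟩ := sum_line n a b w hn hab ha hb hw hd
  exact ⟨D, h1, h2, h3⟩

end

end GPG
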